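import Pool.Agent.H59Bin.P4
import Pool.Agent.H57K2.Two

/-!
# Single exchanges: a link sum of level `k` can only fail if `4 k ≤ r + 2`

`F` is a function on the subsets of a set with `2 r` elements whose support is the set of the
common bases of two matroids `N₁`, `N₂`, all its link sums vanish, and `P` is closed under single
exchanges in the support. If the link sums of `F` restricted to `P` vanish at all levels smaller
than `k`, the same for the complements, and `r + 2 < 4 k`, then they vanish at level `k`.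
-/

set_option autoImplicit false
set_option linter.unusedSectionVars false

namespace Pool.Agent.H59Bin

open Finset

variable {E : Type*} [Fintype E] [DecidableEq E] {K : Type*} [Field K]

/-- The members which contain `C` may be replaced by those which avoid `H \ C`. -/
theorem avoid {r k : ℕ} (f : Finset E → K) (hf : ∀ A, f A ≠ 0 → A.card = r)
    (C H : Finset E) (hC : C.card + k = r) (hCH : C ⊆ H) (hH : ∀ A, A ⊆ H → f A = 0)
    (h1 : ∀ C' : Finset E, C'.card < r → r < C'.card + k →
      ∑ A ∈ univ.filter (fun A : Finset E => C' ⊆ A), f A = 0) :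
    ∑ A ∈ univ.filter (fun A : Finset E => C ⊆ A ∧ Disjoint A (H \ C)), f A =
      ∑ A ∈ univ.filter (fun A : Finset E => C ⊆ A), f A := by
  have s1 := excl C (H \ C) f
  have hd : Disjoint C (H \ C) := disjoint_sdiff
  have e1 : ∀ D ∈ (H \ C).powerset, D ≠ ∅ → (-1 : K) ^ D.card *
      ∑ A ∈ univ.filter (fun A : Finset E => C ∪ D ⊆ A), f A = 0 := by
    intro D hD hD0
    rw [mem_powerset] at hD
    have hcd : (C ∪ D).card = C.card + D.card := card_union_of_disjoint (hd.mono_right hD)
    have hDpos : 0 < D.card := card_pos.2 (nonempty_iff_ne_empty.2 hD0)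
    by_cases hlt : (C ∪ D).card < r
    · rw [h1 _ hlt (by omega), mul_zero]
    · rw [sum_eq_zero, mul_zero]
      intro A hA
      simp only [mem_filter, mem_univ, true_and] at hA
      by_contra hc
      have h3 := hf A hc
      have h5 : C ∪ D = A := eq_of_subset_of_card_le hA (by omega)
      refine hc (hH A ?_)
      rw [← h5]
      exact union_subset hCH (hD.trans sdiff_subset)
  rw [sum_eq_single_of_mem ∅ (empty_mem_powerset _) e1] at s1
  simp only [card_empty, pow_zero, one_mul, union_empty] at s1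
  exact s1

/-- A large set `H` which contains `C` and no member. -/
theorem coc' {r k : ℕ} (hE : Fintype.card E = 2 * r) (f : Finset E → K)
    (hf : ∀ A, f A ≠ 0 → A.card = r) (C H : Finset E) (hC : C.card + k = r) (hCH : C ⊆ H)
    (hH : ∀ A, A ⊆ H → f A = 0) (hH' : ∀ A, A ⊆ H → f Aᶜ = 0)
    (h1 : ∀ C' : Finset E, C'.card < r → r < C'.card + k →
      ∑ A ∈ univ.filter (fun A : Finset E => C' ⊆ A), f A = 0)
    (h2 : ∀ C' : Finset E, C'.card < r → r < C'.card + k →
      ∑ A ∈ univ.filter (fun A : Finset E => C' ⊆ A), f Aᶜ = 0)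
    (hcard : 2 * r < H.card + 2 * k) :
    ∑ A ∈ univ.filter (fun A : Finset E => C ⊆ A), f A = 0 := by
  rw [← avoid f hf C H hC hCH hH h1]
  have s2 := excl (H \ C) C (fun A => f Aᶜ)
  have hd : Disjoint (H \ C) C := sdiff_disjoint
  have hZ : (H \ C).card + C.card = H.card := card_sdiff_add_card_eq_card hCH
  have e2 : ∀ D ∈ C.powerset, (-1 : K) ^ D.card *
      ∑ A ∈ univ.filter (fun A : Finset E => H \ C ∪ D ⊆ A), f Aᶜ = 0 := by
    intro D hD
    rw [mem_powerset] at hD
    have hcd : (H \ C ∪ D).card = (H \ C).card + D.card :=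
      card_union_of_disjoint (hd.mono_right hD)
    by_cases hlt : (H \ C ∪ D).card < r
    · rw [h2 _ hlt (by omega), mul_zero]
    · rw [sum_eq_zero, mul_zero]
      intro A hA
      simp only [mem_filter, mem_univ, true_and] at hA
      by_contra hc
      have h3 := hf _ hc
      rw [card_compl, hE] at h3
      have h4 := card_le_univ A
      rw [hE] at h4
      have h5 : H \ C ∪ D = A := eq_of_subset_of_card_le hA (by omega)
      refine hc (hH' A ?_)
      rw [← h5]
      exact union_subset sdiff_subset (hD.trans hCH)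
  rw [sum_eq_zero e2] at s2
  rw [← s2]
  refine sum_bij' (fun A _ => Aᶜ) (fun A _ => Aᶜ) ?_ ?_ ?_ ?_ ?_
  · intro A hA
    simp only [mem_filter, mem_univ, true_and] at hA ⊢
    refine ⟨fun e he => ?_, ?_⟩
    · rw [mem_compl]
      exact fun h => disjoint_left.1 hA.2 h he
    · rw [disjoint_left]
      intro e he h
      exact (mem_compl.1 he) (hA.1 h)
  · intro A hA
    simp only [mem_filter, mem_univ, true_and] at hA ⊢
    refine ⟨fun e he => ?_, ?_⟩
    · rw [mem_compl]
      exact fun h => disjoint_left.1 hA.2 h he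
    · rw [disjoint_left]
      intro e he h
      exact (mem_compl.1 he) (hA.1 h)
  · intro A _
    exact compl_compl A
  · intro A _
    exact compl_compl A
  · intro A _
    rw [compl_compl]

/-- Extension of an independent set. -/
theorem ext_indep (N : Matroid E) : ∀ (n : ℕ) (I J : Finset E), N.Indep (I : Set E) →
    N.Indep (J : Set E) → I.card + n = J.card →
    ∃ I' : Finset E, I ⊆ I' ∧ I' ⊆ I ∪ J ∧ N.Indep (I' : Set E) ∧ I'.card = J.card := by
  intro n
  induction n with
  | zero =>
    intro I J hI hJ h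
    exact ⟨I, Subset.rfl, subset_union_left, hI, by omega⟩
  | succ n ih =>
    intro I J hI hJ h
    obtain ⟨e, he, he2, hie⟩ := hI.augment_finset hJ (by omega)
    have hie' : N.Indep ((insert e I : Finset E) : Set E) := by
      rw [coe_insert]
      exact hie
    obtain ⟨I', h1, h2, h3, h4⟩ := ih (insert e I) J hie' hJ
      (by rw [card_insert_of_notMem he2]; omega)
    refine ⟨I', (subset_insert e I).trans h1, h2.trans ?_, h3, h4⟩
    rw [insert_union]
    exact insert_subset (mem_union_right I he) Subset.rfl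

/-- One element of `A \ A'` may be replaced by `d`. -/
theorem exists_erase (N : Matroid E) {A A' : Finset E} {d : E} (hA : N.Indep (A : Set E))
    (hA' : N.Indep (A' : Set E)) (hd : d ∈ A') (hdA : d ∉ A) (hc : (A ∩ A').card + 1 ≤ A.card) :
    ∃ a ∈ A, a ∉ A' ∧ N.Indep ((insert d (A.erase a) : Finset E) : Set E) := by
  have hdI : d ∉ A ∩ A' := fun h => hdA (mem_inter.1 h).1
  have h0 : N.Indep ((insert d (A ∩ A') : Finset E) : Set E) := by
    refine hA'.subset ?_
    exact_mod_cast insert_subset hd inter_subset_right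
  have h0c : (insert d (A ∩ A')).card = (A ∩ A').card + 1 := card_insert_of_notMem hdI
  obtain ⟨J, h1, h2, h3, h4⟩ := ext_indep N (A.card - (insert d (A ∩ A')).card) _ A h0 hA
    (by omega)
  have hdJ : d ∈ J := h1 (mem_insert_self _ _)
  have hJ : J ⊆ insert d A := by
    refine h2.trans (union_subset (insert_subset_insert d inter_subset_left) (subset_insert d A))
  have h5 : ¬ A ⊆ J := by
    intro h
    have h6 := card_le_card (insert_subset hdJ h)
    rw [card_insert_of_notMem hdA] at h6
    omega
  obtain ⟨a, haA, haJ⟩ := not_subset.1 h5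
  refine ⟨a, haA, fun h => haJ (h1 (mem_insert_of_mem (mem_inter.2 ⟨haA, h⟩))), ?_⟩
  have h6 : J ⊆ insert d (A.erase a) := by
    intro e he
    rcases mem_insert.1 (hJ he) with h | h
    · exact mem_insert.2 (Or.inl h)
    · refine mem_insert_of_mem (mem_erase.2 ⟨?_, h⟩)
      rintro rfl
      exact haJ he
  have h7 : J = insert d (A.erase a) := by
    refine eq_of_subset_of_card_le h6 ?_
    rw [card_insert_of_notMem (fun h => hdA (mem_of_mem_erase h)), card_erase_of_mem haA]
    have := card_pos.2 ⟨a, haA⟩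
    omega
  rw [← h7]
  exact h3

/-- `x` and `y` extend `G` to an independent set with two more elements. -/
def R (N : Matroid E) (G : Finset E) (x y : E) : Prop :=
  (insert x (insert y G)).card = G.card + 2 ∧
    N.Indep ((insert x (insert y G) : Finset E) : Set E)

theorem R_symm {N : Matroid E} {G : Finset E} {x y : E} (h : R N G x y) : R N G y x := by
  unfold R at h ⊢
  rw [insert_comm]
  exact h

theorem R_left {N : Matroid E} {G : Finset E} {x y : E} (h : R N G x y) :
    x ∉ G ∧ N.Indep ((insert x G : Finset E) : Set E) := by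
  refine ⟨fun hx => ?_, h.2.subset ?_⟩
  · have h1 := h.1
    rw [insert_comm, insert_eq_of_mem hx] at h1
    have := card_insert_le y G
    omega
  · exact_mod_cast insert_subset_insert x (subset_insert y G)

theorem R_tr {N : Matroid E} {G : Finset E} {x y z : E} (h : R N G x y) (hz : z ∉ G)
    (hz' : N.Indep ((insert z G : Finset E) : Set E)) : R N G x z ∨ R N G y z :=
  H57K2.exch N h.1 h.2 hz hz'

/-- The elements which are parallel to `x` over `G`. -/
noncomputable def H (N : Matroid E) (G : Finset E) (x : E) : Finset E :=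
  (open Classical in univ.filter fun e => ¬ R N G x e)

theorem mem_H {N : Matroid E} {G : Finset E} {x e : E} : e ∈ H N G x ↔ ¬ R N G x e := by
  classical
  unfold H
  simp

theorem sub_H {N : Matroid E} {G : Finset E} {x : E} : G ⊆ H N G x := by
  intro e he
  rw [mem_H]
  exact fun h => (R_left (R_symm h)).1 he

/-- There is no independent set with `|G| + 2` elements in `H`. -/
theorem not_indep_H {N : Matroid E} {G A : Finset E} {x : E} (hx : x ∉ G)
    (hx' : N.Indep ((insert x G : Finset E) : Set E)) (hA : A ⊆ H N G x)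
    (hc : A.card = G.card + 2) : ¬ N.Indep (A : Set E) := by
  intro h
  have h1 : (insert x G).card = G.card + 1 := card_insert_of_notMem hx
  obtain ⟨e, he, he2, hie⟩ := hx'.augment_finset h (by omega)
  have h2 := hA he
  rw [mem_H] at h2
  apply h2
  refine R_symm ⟨?_, ?_⟩
  · rw [card_insert_of_notMem he2, h1]
  · rw [coe_insert]
    exact hie

/-- **The level step.** -/
theorem level_step {r k : ℕ} (hE : Fintype.card E = 2 * r) (F : Finset E → K)
    (N₁ N₂ : Matroid E)
    (hF : ∀ A : Finset E, F A ≠ 0 ↔ A.card = r ∧ N₁.Indep (A : Set E) ∧ N₂.Indep (A : Set E))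
    (hFc : ∀ A : Finset E, F A ≠ 0 → N₁.Indep ((Aᶜ : Finset E) : Set E) ∧
      N₂.Indep ((Aᶜ : Finset E) : Set E))
    (htot : ∀ C : Finset E, C.card < r → ∑ A ∈ univ.filter (fun A => C ⊆ A), F A = 0)
    (P : Finset E → Prop)
    (hP : ∀ A A', P A → F A ≠ 0 → F A' ≠ 0 → r ≤ (A ∩ A').card + 1 → P A')
    (f : Finset E → K) (hfF : ∀ A, f A = (open Classical in if P A then F A else 0))
    (C : Finset E) (hC : C.card + k = r) (hk : r + 2 < 4 * k)
    (h1 : ∀ C' : Finset E, C'.card < r → r < C'.card + k →
      ∑ A ∈ univ.filter (fun A : Finset E => C' ⊆ A), f A = 0)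
    (h2 : ∀ C' : Finset E, C'.card < r → r < C'.card + k →
      ∑ A ∈ univ.filter (fun A : Finset E => C' ⊆ A), f Aᶜ = 0) :
    ∑ A ∈ univ.filter (fun A : Finset E => C ⊆ A), f A = 0 := by
  classical
  have hff : ∀ A, f A ≠ 0 → P A ∧ F A ≠ 0 := by
    intro A hA
    rw [hfF] at hA
    by_cases hPA : P A
    · rw [if_pos hPA] at hA
      exact ⟨hPA, hA⟩
    · rw [if_neg hPA] at hA
      exact absurd rfl hA
  have hf : ∀ A, f A ≠ 0 → A.card = r := fun A hA => ((hF A).1 (hff A hA).2).1
  by_contra hne
  -- a pair of members in different classes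
  obtain ⟨A0, hA0, hfA0⟩ := exists_ne_zero_of_sum_ne_zero hne
  simp only [mem_filter, mem_univ, true_and] at hA0
  obtain ⟨A1, hA1, hPA1, hFA1⟩ : ∃ A1, C ⊆ A1 ∧ ¬ P A1 ∧ F A1 ≠ 0 := by
    by_contra hcon
    push Not at hcon
    apply hne
    rw [← htot C (by omega)]
    refine sum_congr rfl fun A hA => ?_
    simp only [mem_filter, mem_univ, true_and] at hA
    rw [hfF]
    by_cases hPA : P A
    · exact if_pos hPA
    · rw [if_neg hPA, hcon A hA hPA]
  let S : Finset (Finset E × Finset E) := univ.filter fun p =>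
    (C ⊆ p.1 ∧ P p.1 ∧ F p.1 ≠ 0) ∧ C ⊆ p.2 ∧ ¬ P p.2 ∧ F p.2 ≠ 0
  obtain ⟨⟨A, A'⟩, hmem, hmax⟩ := exists_max_image S (fun p => (p.1 ∩ p.2).card)
    ⟨(A0, A1), mem_filter.2 ⟨mem_univ _, ⟨hA0, hff A0 hfA0⟩, hA1, hPA1, hFA1⟩⟩
  obtain ⟨⟨hCA, hPA, hFA⟩, hCA', hPA', hFA'⟩ := (mem_filter.1 hmem).2
  simp only at hCA hPA hFA hCA' hPA' hFA'
  have hmax' : ∀ B B', C ⊆ B → P B → F B ≠ 0 → C ⊆ B' → ¬ P B' → F B' ≠ 0 →
      (B ∩ B').card ≤ (A ∩ A').card := fun B B' a b c d e g =>
    hmax (B, B') (mem_filter.2 ⟨mem_univ _, ⟨a, b, c⟩, d, e, g⟩)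
  obtain ⟨cA, iA1, iA2⟩ := (hF A).1 hFA
  obtain ⟨cA', iA1', iA2'⟩ := (hF A').1 hFA'
  have hnadj : (A ∩ A').card + 2 ≤ r := by
    by_contra hcon
    exact hPA' (hP A A' hPA hFA hFA' (by omega))
  have hCG : C ⊆ A ∩ A' := subset_inter hCA hCA'
  rcases Nat.lt_or_ge ((A ∩ A').card + 2) r with hfar | hnear
  · -- distance at least three
    have hne' : (A' \ A).Nonempty := by
      rw [← card_pos]
      have := card_sdiff_add_card_inter A' A
      rw [inter_comm] at this
      omega
    obtain ⟨d, hd⟩ := hne'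
    obtain ⟨hdA', hdA⟩ := mem_sdiff.1 hd
    obtain ⟨a, haA, haA', ha⟩ := exists_erase N₁ iA1 iA1' hdA' hdA (by omega)
    obtain ⟨b, hbA, hbA', hb⟩ := exists_erase N₂ iA2 iA2' hdA' hdA (by omega)
    obtain ⟨a1, a2, ha1, ha2, ha12, i1, i2⟩ : ∃ a1 a2, a1 ∈ A \ A' ∧ a2 ∈ A \ A' ∧ a1 ≠ a2 ∧
        N₁.Indep ((insert d ((A.erase a1).erase a2) : Finset E) : Set E) ∧
        N₂.Indep ((insert d ((A.erase a1).erase a2) : Finset E) : Set E) := by
      by_cases hab : a = b
      · subst hab
        have h3 : 1 < (A \ A').card := by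
          have := card_sdiff_add_card_inter A A'
          omega
        obtain ⟨c, hc, hca⟩ := exists_mem_ne h3 a
        refine ⟨a, c, mem_sdiff.2 ⟨haA, haA'⟩, hc, hca.symm, ha.subset ?_, hb.subset ?_⟩
        · exact_mod_cast insert_subset_insert d (erase_subset c _)
        · exact_mod_cast insert_subset_insert d (erase_subset c _)
      · refine ⟨a, b, mem_sdiff.2 ⟨haA, haA'⟩, mem_sdiff.2 ⟨hbA, hbA'⟩, hab, ha.subset ?_,
          hb.subset ?_⟩
        · exact_mod_cast insert_subset_insert d (erase_subset b _)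
        · rw [erase_right_comm]
          exact_mod_cast insert_subset_insert d (erase_subset a _)
    obtain ⟨ha1A, ha1A'⟩ := mem_sdiff.1 ha1
    obtain ⟨ha2A, ha2A'⟩ := mem_sdiff.1 ha2
    set G0 : Finset E := insert d ((A.erase a1).erase a2) with hG0
    have hsub : (A.erase a1).erase a2 ⊆ A := (erase_subset _ _).trans (erase_subset _ _)
    have ha2' : a2 ∈ A.erase a1 := mem_erase.2 ⟨ha12.symm, ha2A⟩
    have hc0 : ((A.erase a1).erase a2).card + 2 = r := by
      have e1 := card_erase_add_one ha1A
      have e2 := card_erase_add_one ha2'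
      omega
    have hG0c : G0.card + 1 = r := by
      rw [hG0, card_insert_of_notMem (fun h => hdA (hsub h))]
      omega
    have hIG : A ∩ A' ⊆ G0 := by
      intro e he
      obtain ⟨h3, h4⟩ := mem_inter.1 he
      refine mem_insert_of_mem (mem_erase.2 ⟨?_, mem_erase.2 ⟨?_, h3⟩⟩)
      · rintro rfl
        exact ha2A' h4
      · rintro rfl
        exact ha1A' h4
    have noext : ∀ e, e ∉ G0 → N₁.Indep ((insert e G0 : Finset E) : Set E) →
        ¬ N₂.Indep ((insert e G0 : Finset E) : Set E) := by
      intro e he j1 j2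
      have hB : F (insert e G0) ≠ 0 :=
        (hF _).2 ⟨by rw [card_insert_of_notMem he]; omega, j1, j2⟩
      have hCB : C ⊆ insert e G0 := (hCG.trans hIG).trans (subset_insert e G0)
      by_cases hPB : P (insert e G0)
      · have h3 := hmax' _ A' hCB hPB hB hCA' hPA' hFA'
        have h4 : insert d (A ∩ A') ⊆ insert e G0 ∩ A' := by
          refine subset_inter (insert_subset (mem_insert_of_mem (mem_insert_self _ _))
            (hIG.trans (subset_insert e G0))) (insert_subset hdA' inter_subset_right)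
        have h5 := card_le_card h4
        rw [card_insert_of_notMem (fun h => hdA (mem_inter.1 h).1)] at h5
        omega
      · have h3 := hmax' A _ hCA hPA hFA hCB hPB hB
        have h4 : (A.erase a1).erase a2 ⊆ A ∩ insert e G0 :=
          subset_inter hsub ((subset_insert d _).trans (subset_insert e G0))
        have h5 := card_le_card h4
        omega
    let Hs : Finset E := univ.filter fun e => e ∈ G0 ∨ ¬ N₁.Indep ((insert e G0 : Finset E) : Set E)
    have hHs : ∀ B, B ⊆ Hs → f B = 0 := by
      intro B hB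
      by_contra hc
      obtain ⟨cB, iB1, iB2⟩ := (hF B).1 (hff B hc).2
      obtain ⟨e, he, he2, hie⟩ := i1.augment_finset iB1 (by omega)
      rcases (mem_filter.1 (hB he)).2 with h | h
      · exact he2 h
      · apply h
        rw [coe_insert]
        exact hie
    have hCH : C ⊆ Hs := fun e he => mem_filter.2 ⟨mem_univ _, Or.inl (hIG (hCG he))⟩
    rw [← avoid f hf C Hs hC hCH hHs h1] at hne
    apply hne
    refine sum_eq_zero fun B hB => ?_
    simp only [mem_filter, mem_univ, true_and] at hB
    by_contra hc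
    obtain ⟨cB, iB1, iB2⟩ := (hF B).1 (hff B hc).2
    obtain ⟨e, he, he2, hie⟩ := i2.augment_finset iB2 (by omega)
    have h3 : e ∉ Hs := by
      intro h
      refine disjoint_left.1 hB.2 he (mem_sdiff.2 ⟨h, fun heC => he2 (hIG (hCG heC))⟩)
    have h4 : N₁.Indep ((insert e G0 : Finset E) : Set E) := by
      by_contra h
      exact h3 (mem_filter.2 ⟨mem_univ _, Or.inr h⟩)
    refine noext e he2 h4 ?_
    rw [coe_insert]
    exact hie
  · -- the square
    set G : Finset E := A ∩ A' with hG
    have hGc : G.card + 2 = r := by omega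
    have hGA : G ⊆ A := inter_subset_left
    have hGA' : G ⊆ A' := inter_subset_right
    have pair : ∀ B : Finset E, G ⊆ B → B.card = r →
        ∃ x y, B = insert x (insert y G) := by
      intro B hB hcB
      have h3 : (B \ G).card = 2 := by
        rw [card_sdiff_of_subset hB]
        omega
      obtain ⟨x, y, -, h4⟩ := card_eq_two.1 h3
      refine ⟨x, y, ?_⟩
      have h5 : B = (B \ G) ∪ G := (sdiff_union_of_subset hB).symm
      rw [h5, h4]
      ext z
      simp [or_assoc]
    obtain ⟨a1, a2, hAeq⟩ := pair A hGA cA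
    obtain ⟨d1, d2, hAeq'⟩ := pair A' hGA' cA'
    have ra1 : R N₁ G a1 a2 := ⟨by rw [← hAeq]; omega, by rw [← hAeq]; exact iA1⟩
    have ra2 : R N₂ G a1 a2 := ⟨by rw [← hAeq]; omega, by rw [← hAeq]; exact iA2⟩
    have rd1 : R N₁ G d1 d2 := ⟨by rw [← hAeq']; omega, by rw [← hAeq']; exact iA1'⟩
    have rd2 : R N₂ G d1 d2 := ⟨by rw [← hAeq']; omega, by rw [← hAeq']; exact iA2'⟩
    have com : ∀ x y, R N₁ G x y → R N₂ G x y → F (insert x (insert y G)) ≠ 0 := by
      intro x y h3 h4
      exact (hF _).2 ⟨by rw [h3.1]; exact hGc, h3.2, h4.2⟩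
    -- common bases over `G` which share `y` are adjacent
    have adj : ∀ x y z, R N₁ G x y → R N₂ G x y → R N₁ G z y → R N₂ G z y →
        P (insert x (insert y G)) → P (insert z (insert y G)) := by
      intro x y z h3 h4 h5 h6 h7
      refine hP _ _ h7 (com x y h3 h4) (com z y h5 h6) ?_
      have h8 : insert y G ⊆ insert x (insert y G) ∩ insert z (insert y G) :=
        subset_inter (subset_insert x _) (subset_insert z _)
      have h9 := card_le_card h8
      rw [card_insert_of_notMem (R_left (R_symm h3)).1] at h9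
      omega
    have hPa : P (insert a1 (insert a2 G)) := by rw [← hAeq]; exact hPA
    have hPa' : P (insert a2 (insert a1 G)) := by rw [insert_comm]; exact hPa
    have hPd : ¬ P (insert d1 (insert d2 G)) := by rw [← hAeq']; exact hPA'
    have hPd' : ¬ P (insert d2 (insert d1 G)) := by rw [insert_comm]; exact hPd
    -- a class `P` common base which contains `a` cannot contain `d`
    have key : ∀ x a d d', R N₁ G x a → R N₂ G x a → P (insert x (insert a G)) →
        R N₁ G x d → R N₂ G x d → R N₁ G d' d → R N₂ G d' d → P (insert d' (insert d G)) := by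
      intro x a d d' h3 h4 h5 h6 h7 h8 h9
      have h10 : P (insert a (insert x G)) := by rw [insert_comm]; exact h5
      have h11 : P (insert d (insert x G)) :=
        adj a x d (R_symm h3) (R_symm h4) (R_symm h6) (R_symm h7) h10
      have h12 : P (insert x (insert d G)) := by rw [insert_comm]; exact h11
      exact adj x d d' h6 h7 h8 h9 h12
    have na1 := R_left ra1
    have na2 := R_left (R_symm ra1)
    have na1' := R_left ra2
    have na2' := R_left (R_symm ra2)
    have nd1 := R_left rd1
    have nd2 := R_left (R_symm rd1)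
    have nd1' := R_left rd2
    have nd2' := R_left (R_symm rd2)
    have no11 : ¬ (R N₁ G a1 d1 ∧ R N₂ G a1 d1) := fun h =>
      hPd' (key a1 a2 d1 d2 ra1 ra2 hPa h.1 h.2 (R_symm rd1) (R_symm rd2))
    have no12 : ¬ (R N₁ G a1 d2 ∧ R N₂ G a1 d2) := fun h =>
      hPd (key a1 a2 d2 d1 ra1 ra2 hPa h.1 h.2 rd1 rd2)
    have no21 : ¬ (R N₁ G a2 d1 ∧ R N₂ G a2 d1) := fun h =>
      hPd' (key a2 a1 d1 d2 (R_symm ra1) (R_symm ra2) hPa' h.1 h.2 (R_symm rd1) (R_symm rd2))
    have no22 : ¬ (R N₁ G a2 d2 ∧ R N₂ G a2 d2) := fun h =>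
      hPd (key a2 a1 d2 d1 (R_symm ra1) (R_symm ra2) hPa' h.1 h.2 rd1 rd2)
    have t1 := R_tr rd1 na1.1 na1.2
    have t2 := R_tr rd1 na2.1 na2.2
    have t3 := R_tr rd2 na1'.1 na1'.2
    have t4 := R_tr rd2 na2'.1 na2'.2
    have t5 := R_tr ra1 nd1.1 nd1.2
    have t6 := R_tr ra1 nd2.1 nd2.2
    have t7 := R_tr ra2 nd1'.1 nd1'.2
    have t8 := R_tr ra2 nd2'.1 nd2'.2
    have sy : ∀ (N : Matroid E) (x y : E), R N G x y ↔ R N G y x := fun N x y =>
      ⟨R_symm, R_symm⟩
    rw [sy N₁ d1 a1, sy N₁ d2 a1] at t1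
    rw [sy N₁ d1 a2, sy N₁ d2 a2] at t2
    rw [sy N₂ d1 a1, sy N₂ d2 a1] at t3
    rw [sy N₂ d1 a2, sy N₂ d2 a2] at t4
    have grid : (¬ R N₁ G a2 d1 ∧ ¬ R N₂ G a1 d1 ∧ ¬ R N₁ G a1 d2 ∧ ¬ R N₂ G a2 d2) ∨
        (¬ R N₁ G a2 d2 ∧ ¬ R N₂ G a1 d2 ∧ ¬ R N₁ G a1 d1 ∧ ¬ R N₂ G a2 d1) := by
      rcases t1 with h | h
      · have x1 : ¬ R N₂ G a1 d1 := fun h' => no11 ⟨h, h'⟩
        have x2 : R N₂ G a1 d2 := t3.resolve_left x1
        have x3 : ¬ R N₁ G a1 d2 := fun h' => no12 ⟨h', x2⟩
        have x4 : R N₂ G a2 d1 := t7.resolve_left x1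
        have x5 : ¬ R N₁ G a2 d1 := fun h' => no21 ⟨h', x4⟩
        have x6 : R N₁ G a2 d2 := t6.resolve_left x3
        have x7 : ¬ R N₂ G a2 d2 := fun h' => no22 ⟨x6, h'⟩
        exact Or.inl ⟨x5, x1, x3, x7⟩
      · have x1 : ¬ R N₂ G a1 d2 := fun h' => no12 ⟨h, h'⟩
        have x2 : R N₂ G a1 d1 := t3.resolve_right x1
        have x3 : ¬ R N₁ G a1 d1 := fun h' => no11 ⟨h', x2⟩
        have x4 : R N₂ G a2 d2 := t8.resolve_left x1
        have x5 : ¬ R N₁ G a2 d2 := fun h' => no22 ⟨h', x4⟩
        have x6 : R N₁ G a2 d1 := t5.resolve_left x3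
        have x7 : ¬ R N₂ G a2 d1 := fun h' => no21 ⟨x6, h'⟩
        exact Or.inr ⟨x5, x1, x3, x7⟩
    obtain ⟨d, d', e, e', rdd1, rdd2, ree1, ree2, hPdd, hPee, g1, g2, g3, g4⟩ :
        ∃ d d' e e', R N₁ G d' d ∧ R N₂ G d' d ∧ R N₁ G e' e ∧ R N₂ G e' e ∧
          ¬ P (insert d' (insert d G)) ∧ ¬ P (insert e' (insert e G)) ∧
          ¬ R N₁ G a2 d ∧ ¬ R N₂ G a1 d ∧ ¬ R N₁ G a1 e ∧ ¬ R N₂ G a2 e := by
      rcases grid with ⟨g1, g2, g3, g4⟩ | ⟨g1, g2, g3, g4⟩
      · exact ⟨d1, d2, d2, d1, R_symm rd1, R_symm rd2, rd1, rd2, hPd', hPd, g1, g2, g3, g4⟩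
      · exact ⟨d2, d1, d1, d2, rd1, rd2, R_symm rd1, R_symm rd2, hPd, hPd', g1, g2, g3, g4⟩
    have nd := R_left (R_symm rdd1)
    have nd' := R_left (R_symm rdd2)
    have ne := R_left (R_symm ree1)
    have ne' := R_left (R_symm ree2)
    -- the general cover statement
    have cover : ∀ x, ((R N₁ G a1 x ∧ R N₁ G a2 x) → ¬ R N₂ G a1 x ∧ ¬ R N₂ G a2 x) ∧
        ((R N₂ G a1 x ∧ R N₂ G a2 x) → ¬ R N₁ G a1 x ∧ ¬ R N₁ G a2 x) := by
      intro x
      -- if `x, a1` is a common base and `x` is not parallel to `a2` in `N₁`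
      have c1 : R N₁ G a1 x → R N₂ G a1 x → P (insert a1 (insert x G)) := by
        intro h3 h4
        have h5 : P (insert x (insert a1 G)) :=
          adj a2 a1 x (R_symm ra1) (R_symm ra2) (R_symm h3) (R_symm h4) hPa'
        rw [insert_comm]
        exact h5
      have c2 : R N₁ G a2 x → R N₂ G a2 x → P (insert a2 (insert x G)) := by
        intro h3 h4
        have h5 : P (insert x (insert a2 G)) :=
          adj a1 a2 x ra1 ra2 (R_symm h3) (R_symm h4) hPa
        rw [insert_comm]
        exact h5
      -- `x` common with `a1`, and `x ∦ a2` in `N₁` : use `d`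
      have c3 : R N₁ G a1 x → R N₂ G a1 x → R N₁ G a2 x → False := by
        intro h3 h4 h5
        have h6 : R N₁ G x d := by
          rcases R_tr h5 nd.1 nd.2 with h | h
          · exact absurd h g1
          · exact h
        have h7 : R N₂ G x d := by
          rcases R_tr h4 nd'.1 nd'.2 with h | h
          · exact absurd h g2
          · exact h
        have h8 : P (insert x (insert a1 G)) := by rw [insert_comm]; exact c1 h3 h4
        exact hPdd (key x a1 d d' (R_symm h3) (R_symm h4) h8 h6 h7 rdd1 rdd2)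
      -- `x` common with `a2`, and `x ∦ a1` in `N₁` : use `e`
      have c4 : R N₁ G a2 x → R N₂ G a2 x → R N₁ G a1 x → False := by
        intro h3 h4 h5
        have h6 : R N₁ G x e := by
          rcases R_tr h5 ne.1 ne.2 with h | h
          · exact absurd h g3
          · exact h
        have h7 : R N₂ G x e := by
          rcases R_tr h4 ne'.1 ne'.2 with h | h
          · exact absurd h g4
          · exact h
        have h8 : P (insert x (insert a2 G)) := by rw [insert_comm]; exact c2 h3 h4
        exact hPee (key x a2 e e' (R_symm h3) (R_symm h4) h8 h6 h7 ree1 ree2)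
      -- `x` common with `a1`, and `x ∦ a2` in `N₂` : use `e`
      have c5 : R N₁ G a1 x → R N₂ G a1 x → R N₂ G a2 x → False := by
        intro h3 h4 h5
        have h6 : R N₁ G x e := by
          rcases R_tr h3 ne.1 ne.2 with h | h
          · exact absurd h g3
          · exact h
        have h7 : R N₂ G x e := by
          rcases R_tr h5 ne'.1 ne'.2 with h | h
          · exact absurd h g4
          · exact h
        have h8 : P (insert x (insert a1 G)) := by rw [insert_comm]; exact c1 h3 h4
        exact hPee (key x a1 e e' (R_symm h3) (R_symm h4) h8 h6 h7 ree1 ree2)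
      have c6 : R N₁ G a2 x → R N₂ G a2 x → R N₂ G a1 x → False := by
        intro h3 h4 h5
        have h6 : R N₁ G x d := by
          rcases R_tr h3 nd.1 nd.2 with h | h
          · exact absurd h g1
          · exact h
        have h7 : R N₂ G x d := by
          rcases R_tr h5 nd'.1 nd'.2 with h | h
          · exact absurd h g2
          · exact h
        have h8 : P (insert x (insert a2 G)) := by rw [insert_comm]; exact c2 h3 h4
        exact hPdd (key x a2 d d' (R_symm h3) (R_symm h4) h8 h6 h7 rdd1 rdd2)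
      exact ⟨fun h => ⟨fun h' => c3 h.1 h' h.2, fun h' => c4 h.2 h' h.1⟩,
        fun h => ⟨fun h' => c5 h' h.1 h.2, fun h' => c6 h' h.2 h.1⟩⟩
    -- the four sets are small
    have small1 : ∀ x, x ∉ G → N₁.Indep ((insert x G : Finset E) : Set E) →
        (H N₁ G x).card + 2 * k ≤ 2 * r := by
      intro x hx hx'
      by_contra hcon
      refine hne (coc' hE f hf C (H N₁ G x) hC (hCG.trans sub_H) ?_ ?_ h1 h2 (by omega))
      · intro B hB
        by_contra hc
        obtain ⟨cB, iB1, iB2⟩ := (hF B).1 (hff B hc).2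
        exact not_indep_H hx hx' hB (by omega) iB1
      · intro B hB
        by_contra hc
        have h3 := (hFc _ (hff _ hc).2).1
        have h4 := hf _ hc
        rw [compl_compl] at h3
        rw [card_compl, hE] at h4
        have h5 := card_le_univ B
        rw [hE] at h5
        exact not_indep_H hx hx' hB (by omega) h3
    have small2 : ∀ x, x ∉ G → N₂.Indep ((insert x G : Finset E) : Set E) →
        (H N₂ G x).card + 2 * k ≤ 2 * r := by
      intro x hx hx'
      by_contra hcon
      refine hne (coc' hE f hf C (H N₂ G x) hC (hCG.trans sub_H) ?_ ?_ h1 h2 (by omega))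
      · intro B hB
        by_contra hc
        obtain ⟨cB, iB1, iB2⟩ := (hF B).1 (hff B hc).2
        exact not_indep_H hx hx' hB (by omega) iB2
      · intro B hB
        by_contra hc
        have h3 := (hFc _ (hff _ hc).2).2
        have h4 := hf _ hc
        rw [compl_compl] at h3
        rw [card_compl, hE] at h4
        have h5 := card_le_univ B
        rw [hE] at h5
        exact not_indep_H hx hx' hB (by omega) h3
    have s11 := small1 a1 na1.1 na1.2
    have s12 := small1 a2 na2.1 na2.2
    have s21 := small2 a1 na1'.1 na1'.2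
    have s22 := small2 a2 na2'.1 na2'.2
    have u1 := card_union_add_card_inter (H N₁ G a1) (H N₁ G a2)
    have u2 := card_union_add_card_inter (H N₂ G a1) (H N₂ G a2)
    have v1 := card_add_card_compl (H N₁ G a1 ∪ H N₁ G a2)
    have v2 := card_add_card_compl (H N₂ G a1 ∪ H N₂ G a2)
    rw [hE] at v1 v2
    have w1 : G.card + (H N₂ G a1 ∪ H N₂ G a2)ᶜ.card ≤ (H N₁ G a1 ∩ H N₁ G a2).card := by
      rw [← card_union_of_disjoint]
      · refine card_le_card (union_subset (subset_inter sub_H sub_H) fun x hx => ?_)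
        rw [mem_compl, mem_union, mem_H, mem_H, not_or, not_not, not_not] at hx
        rw [mem_inter, mem_H, mem_H]
        exact (cover x).2 hx
      · rw [disjoint_left]
        intro x hx hx'
        exact (mem_compl.1 hx') (mem_union_left _ (sub_H hx))
    have w2 : G.card + (H N₁ G a1 ∪ H N₁ G a2)ᶜ.card ≤ (H N₂ G a1 ∩ H N₂ G a2).card := by
      rw [← card_union_of_disjoint]
      · refine card_le_card (union_subset (subset_inter sub_H sub_H) fun x hx => ?_)
        rw [mem_compl, mem_union, mem_H, mem_H, not_or, not_not, not_not] at hx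
        rw [mem_inter, mem_H, mem_H]
        exact (cover x).1 hx
      · rw [disjoint_left]
        intro x hx hx'
        exact (mem_compl.1 hx') (mem_union_left _ (sub_H hx))
    omega

end Pool.Agent.H59Bin
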