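import Pool.Agent.H41FR2.Frame

/-!
# Single exchanges in binary matroids: the link sums of codimension four

Cocircuits which avoid `C` are large if a link sum at `C` does not vanish; over the field with two
elements this forces `r ≥ 11`.
-/

set_option autoImplicit false
set_option linter.unusedSectionVars false

namespace Pool.Agent.H59Bin

open Finset

variable {E : Type*} [Fintype E] [DecidableEq E] {K : Type*} [Field K]

theorem excl (P Z : Finset E) (f : Finset E → K) :
    ∑ A ∈ univ.filter (fun A : Finset E => P ⊆ A ∧ Disjoint A Z), f A =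
      ∑ D ∈ Z.powerset, (-1) ^ D.card *
        ∑ A ∈ univ.filter (fun A : Finset E => P ∪ D ⊆ A), f A := by
  have h := H41FR2.incl_excl Z (fun A : Finset E => if P ⊆ A then f A else 0)
  have e1 : ∑ A ∈ univ.filter (fun A : Finset E => Disjoint A Z), (if P ⊆ A then f A else 0) =
      ∑ A ∈ univ.filter (fun A : Finset E => P ⊆ A ∧ Disjoint A Z), f A := by
    rw [← sum_filter, filter_filter]
    refine sum_congr ?_ fun _ _ => rfl
    ext A
    simp only [mem_filter, mem_univ, true_and]
    exact and_comm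
  rw [← e1, h]
  refine sum_congr rfl fun D _ => ?_
  congr 1
  rw [← sum_filter, filter_filter]
  refine sum_congr ?_ fun _ _ => rfl
  ext A
  simp only [mem_filter, mem_univ, true_and, union_subset_iff]
  exact and_comm

/-- A set of `r` vectors in the kernel of a nonzero functional is dependent. -/
theorem not_indep {r : ℕ} (v : E → Fin r → K) (φ : (Fin r → K) →ₗ[K] K) (hφ : φ ≠ 0)
    (D : Finset E) (hD : ∀ e ∈ D, φ (v e) = 0) (hDr : D.card = r) :
    ¬ LinearIndepOn K v (D : Set E) := by
  intro h
  apply hφ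
  have h1 : Submodule.span K (v '' (D : Set E)) = ⊤ := by
    have h2 : LinearIndependent K (fun x : (D : Set E) => v x) := h
    have h3 := h2.span_eq_top_of_card_eq_finrank' (by simp [hDr])
    rw [← h3]
    congr 1
    ext x
    simp
  have h4 : Submodule.span K (v '' (D : Set E)) ≤ LinearMap.ker φ := by
    rw [Submodule.span_le]
    rintro _ ⟨e, he, rfl⟩
    exact hD e he
  rw [h1, top_le_iff] at h4
  exact LinearMap.ker_eq_top.1 h4

/-- If the link sum at `C` does not vanish then the cocircuits which avoid `C` are large. -/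
theorem coc [DecidableEq K] {r k : ℕ} (hE : Fintype.card E = 2 * r) (v : E → Fin r → K) (f : Finset E → K)
    (hf : ∀ A, f A ≠ 0 → A.card = r ∧ LinearIndepOn K v (A : Set E) ∧
      LinearIndepOn K v ((Aᶜ : Finset E) : Set E))
    (C : Finset E) (hC : C.card + k = r)
    (h1 : ∀ C' : Finset E, C'.card < r → r < C'.card + k →
      ∑ A ∈ univ.filter (fun A : Finset E => C' ⊆ A), f A = 0)
    (h2 : ∀ C' : Finset E, C'.card < r → r < C'.card + k →
      ∑ A ∈ univ.filter (fun A : Finset E => C' ⊆ A), f Aᶜ = 0)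
    (φ : (Fin r → K) →ₗ[K] K) (hφ : φ ≠ 0) (hφC : ∀ e ∈ C, φ (v e) = 0)
    (hG : (univ.filter fun e => φ (v e) ≠ 0).card < 2 * k) :
    ∑ A ∈ univ.filter (fun A : Finset E => C ⊆ A), f A = 0 := by
  classical
  set Z : Finset E := univ.filter fun e => e ∉ C ∧ φ (v e) = 0 with hZ
  have hZC : Disjoint C Z := by
    rw [disjoint_left]
    intro e he h
    exact (mem_filter.1 h).2.1 he
  have hZφ : ∀ e ∈ Z, φ (v e) = 0 := fun e he => (mem_filter.1 he).2.2
  have hcard : C.card + Z.card + (univ.filter fun e => φ (v e) ≠ 0).card = 2 * r := by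
    rw [← hE, ← card_union_of_disjoint hZC]
    have e1 : C ∪ Z = univ.filter fun e => ¬ φ (v e) ≠ 0 := by
      ext e
      simp only [hZ, mem_union, mem_filter, mem_univ, true_and, not_not]
      constructor
      · rintro (h | h)
        · exact hφC e h
        · exact h.2
      · intro h
        by_cases hc : e ∈ C
        · exact Or.inl hc
        · exact Or.inr ⟨hc, h⟩
    rw [e1, add_comm, card_filter_add_card_filter_not, card_univ]
  -- the first evaluation
  have s1 := excl C Z f
  have s2 := excl Z C (fun A => f Aᶜ)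
  have e1 : ∀ D ∈ Z.powerset, D ≠ ∅ → (-1 : K) ^ D.card *
      ∑ A ∈ univ.filter (fun A : Finset E => C ∪ D ⊆ A), f A = 0 := by
    intro D hD hD0
    rw [mem_powerset] at hD
    have hcd : (C ∪ D).card = C.card + D.card := card_union_of_disjoint (hZC.mono_right hD)
    have hDpos : 0 < D.card := card_pos.2 (nonempty_iff_ne_empty.2 hD0)
    by_cases hlt : (C ∪ D).card < r
    · rw [h1 _ hlt (by omega), mul_zero]
    · rw [sum_eq_zero, mul_zero]
      intro A hA
      simp only [mem_filter, mem_univ, true_and] at hA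
      by_contra hc
      obtain ⟨h3, h4, -⟩ := hf A hc
      have h5 : C ∪ D = A := eq_of_subset_of_card_le hA (by omega)
      refine not_indep v φ hφ A ?_ h3 h4
      rw [← h5]
      intro e he
      rcases mem_union.1 he with he | he
      · exact hφC e he
      · exact hZφ e (hD he)
  rw [sum_eq_single_of_mem ∅ (empty_mem_powerset Z) e1] at s1
  simp only [card_empty, pow_zero, one_mul, union_empty] at s1
  rw [← s1]
  -- the second evaluation
  have e2 : ∀ D ∈ C.powerset, (-1 : K) ^ D.card *
      ∑ A ∈ univ.filter (fun A : Finset E => Z ∪ D ⊆ A), f Aᶜ = 0 := by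
    intro D hD
    rw [mem_powerset] at hD
    have hcd : (Z ∪ D).card = Z.card + D.card :=
      card_union_of_disjoint (hZC.symm.mono_right hD)
    by_cases hlt : (Z ∪ D).card < r
    · rw [h2 _ hlt (by omega), mul_zero]
    · rw [sum_eq_zero, mul_zero]
      intro A hA
      simp only [mem_filter, mem_univ, true_and] at hA
      by_contra hc
      obtain ⟨h3, -, h4⟩ := hf _ hc
      rw [compl_compl] at h4
      rw [card_compl, hE] at h3
      have h5 : Z ∪ D = A := eq_of_subset_of_card_le hA (by omega)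
      refine not_indep v φ hφ A ?_ (by
        have := card_le_univ A
        omega) h4
      rw [← h5]
      intro e he
      rcases mem_union.1 he with he | he
      · exact hZφ e he
      · exact hφC e (hD he)
  rw [sum_eq_zero e2] at s2
  rw [← s2]
  refine sum_bij' (fun A _ => Aᶜ) (fun A _ => Aᶜ) ?_ ?_ ?_ ?_ ?_
  · intro A hA
    simp only [mem_filter, mem_univ, true_and] at hA ⊢
    refine ⟨fun e he => ?_, ?_⟩
    · rw [mem_compl]
      exact fun h => disjoint_left.1 hA.2 h he
    · rw [disjoint_left]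
      intro e he h
      exact (mem_compl.1 he) (hA.1 h)
  · intro A hA
    simp only [mem_filter, mem_univ, true_and] at hA ⊢
    refine ⟨fun e he => ?_, ?_⟩
    · rw [mem_compl]
      exact fun h => disjoint_left.1 hA.2 h he
    · rw [disjoint_left]
      intro e he h
      exact (mem_compl.1 he) (hA.1 h)
  · intro A _
    exact compl_compl A
  · intro A _
    exact compl_compl A
  · intro A _
    rw [compl_compl]

theorem dot_card : ∀ u : Fin 4 → ZMod 2,
    (univ.filter fun a : Fin 4 → ZMod 2 => a ⬝ᵥ u ≠ 0).card ≤ 8 := by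
  decide

/-- Over the field with two elements the link sums of codimension `4` vanish for `r ≤ 10`. -/
theorem four {r : ℕ} (hE : Fintype.card E = 2 * r) (v : E → Fin r → ZMod 2)
    (f : Finset E → ZMod 2)
    (hf : ∀ A, f A ≠ 0 → A.card = r ∧ LinearIndepOn (ZMod 2) v (A : Set E) ∧
      LinearIndepOn (ZMod 2) v ((Aᶜ : Finset E) : Set E))
    (C : Finset E) (hC : C.card + 4 = r) (hr : r ≤ 10)
    (h1 : ∀ C' : Finset E, C'.card < r → r < C'.card + 4 →
      ∑ A ∈ univ.filter (fun A : Finset E => C' ⊆ A), f A = 0)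
    (h2 : ∀ C' : Finset E, C'.card < r → r < C'.card + 4 →
      ∑ A ∈ univ.filter (fun A : Finset E => C' ⊆ A), f Aᶜ = 0) :
    ∑ A ∈ univ.filter (fun A : Finset E => C ⊆ A), f A = 0 := by
  classical
  by_contra hne
  obtain ⟨A, hA, hfA⟩ := exists_ne_zero_of_sum_ne_zero hne
  simp only [mem_filter, mem_univ, true_and] at hA
  have hind : LinearIndepOn (ZMod 2) v (C : Set E) :=
    (hf A hfA).2.1.mono (by exact_mod_cast hA)
  set U := Submodule.span (ZMod 2) (v '' (C : Set E)) with hU
  have hUr : Module.finrank (ZMod 2) U = C.card := by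
    have h3 : LinearIndependent (ZMod 2) (fun x : (C : Set E) => v x) := hind
    have h4 := finrank_span_eq_card h3
    have h5 : Set.range (fun x : (C : Set E) => v x) = v '' (C : Set E) := by
      ext x
      simp
    rw [h5] at h4
    rw [hU, h4]
    simp
  have hQ : Module.finrank (ZMod 2) ((Fin r → ZMod 2) ⧸ U) = 4 := by
    have h3 := Submodule.finrank_quotient_add_finrank U
    rw [hUr, Module.finrank_fin_fun] at h3
    omega
  let L : ((Fin r → ZMod 2) ⧸ U) ≃ₗ[ZMod 2] (Fin 4 → ZMod 2) :=
    LinearEquiv.ofFinrankEq _ _ (by rw [hQ, Module.finrank_fin_fun])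
  let p : (Fin r → ZMod 2) →ₗ[ZMod 2] (Fin 4 → ZMod 2) := L.toLinearMap ∘ₗ U.mkQ
  have hp : Function.Surjective p := L.surjective.comp U.mkQ_surjective
  have hpC : ∀ e ∈ C, p (v e) = 0 := by
    intro e he
    have h3 : U.mkQ (v e) = 0 := by
      rw [Submodule.mkQ_apply, Submodule.Quotient.mk_eq_zero]
      exact Submodule.subset_span ⟨e, he, rfl⟩
    change L (U.mkQ (v e)) = 0
    rw [h3, map_zero]
  let φ : (Fin 4 → ZMod 2) → (Fin r → ZMod 2) →ₗ[ZMod 2] ZMod 2 := fun a =>
    ∑ i, a i • (LinearMap.proj i ∘ₗ p)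
  have hφ : ∀ a x, φ a x = a ⬝ᵥ p x := by
    intro a x
    simp only [φ, LinearMap.sum_apply, LinearMap.smul_apply, LinearMap.comp_apply,
      LinearMap.proj_apply, smul_eq_mul, dotProduct]
  have hbig : ∀ a : Fin 4 → ZMod 2, a ≠ 0 → 8 ≤ (univ.filter fun e => φ a (v e) ≠ 0).card := by
    intro a ha
    by_contra hlt
    refine hne (coc (k := 4) hE v f hf C hC h1 h2 (φ a) ?_ ?_ (by omega))
    · intro h0
      apply ha
      funext i
      obtain ⟨x, hx⟩ := hp (Pi.single i 1)
      have h3 := hφ a x
      rw [h0, hx, dotProduct_single_one] at h3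
      exact h3.symm
    · intro e he
      rw [hφ, hpC e he, dotProduct_zero]
  have hsum : ∑ a ∈ univ.filter (fun a : Fin 4 → ZMod 2 => a ≠ 0),
      (univ.filter fun e => φ a (v e) ≠ 0).card ≤ ∑ e ∈ Cᶜ, 8 := by
    calc ∑ a ∈ univ.filter (fun a : Fin 4 → ZMod 2 => a ≠ 0),
          (univ.filter fun e => φ a (v e) ≠ 0).card
        ≤ ∑ a : Fin 4 → ZMod 2, (univ.filter fun e => φ a (v e) ≠ 0).card :=
          sum_le_sum_of_subset (filter_subset _ _)
      _ = ∑ a : Fin 4 → ZMod 2, ∑ e, if φ a (v e) ≠ 0 then 1 else 0 := by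
          refine sum_congr rfl fun a _ => ?_
          rw [card_filter]
      _ = ∑ e, ∑ a : Fin 4 → ZMod 2, if φ a (v e) ≠ 0 then 1 else 0 := sum_comm
      _ = ∑ e, (univ.filter fun a : Fin 4 → ZMod 2 => a ⬝ᵥ p (v e) ≠ 0).card := by
          refine sum_congr rfl fun e _ => ?_
          rw [card_filter]
          simp only [hφ]
      _ = ∑ e ∈ Cᶜ, (univ.filter fun a : Fin 4 → ZMod 2 => a ⬝ᵥ p (v e) ≠ 0).card := by
          rw [← sum_add_sum_compl C, sum_eq_zero, zero_add]
          intro e he
          rw [hpC e he]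
          simp
      _ ≤ ∑ e ∈ Cᶜ, 8 := sum_le_sum fun e _ => dot_card _
  have hsum2 : ∑ a ∈ univ.filter (fun a : Fin 4 → ZMod 2 => a ≠ 0), 8 ≤
      ∑ a ∈ univ.filter (fun a : Fin 4 → ZMod 2 => a ≠ 0),
        (univ.filter fun e => φ a (v e) ≠ 0).card :=
    sum_le_sum fun a ha => hbig a (mem_filter.1 ha).2
  have h15 : (univ.filter (fun a : Fin 4 → ZMod 2 => a ≠ 0)).card = 15 := by decide
  rw [sum_const, smul_eq_mul, h15] at hsum2
  rw [sum_const, smul_eq_mul, card_compl, hE] at hsum
  omega

end Pool.Agent.H59Bin
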